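import Mathlib
import Pool.Agent.H26R2.Bass.Ext

set_option autoImplicit false

/-!
Minimal counterexamples to the Bass trace conjecture: quotients in which all proper images of an
idempotent matrix have trivial trace.
-/

namespace Pool.Agent.R934.BC

open MonoidAlgebra
open Pool.Agent.H23R2.Cyc (ell ell_single ell_mul_comm ell_eq_sum tf tf_apply tf_eq_zero)
open Pool.Agent.H26R2.Bass
open Pool.Agent.H26R2.IdemLI (AlmostDiv ChainFin FinRankAb FinOrd)

universe u v w

section

variable {R : Type u} [CommRing R] {G : Type v} [Group G] {n : ℕ}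

open Classical in
/-- indicator of the elements conjugate to `x` modulo `M` -/
noncomputable def cl (R : Type u) [CommRing R] (M : Subgroup G) [M.Normal] (x : G) : G → R :=
  fun h => if IsConj (QuotientGroup.mk' M h) (QuotientGroup.mk' M x) then 1 else 0

/-- the support of the diagonal -/
noncomputable def dsupp (B : Matrix (Fin n) (Fin n) (MonoidAlgebra R G)) : Finset G := by
  classical
  exact Finset.univ.biUnion fun i : Fin n => (B i i).coeff.support

omit [Group G] in
lemma mem_dsupp (B : Matrix (Fin n) (Fin n) (MonoidAlgebra R G)) (i : Fin n) (g : G)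
    (hg : (B i i).coeff g ≠ 0) : g ∈ dsupp B := by
  classical
  unfold dsupp
  exact Finset.mem_biUnion.2 ⟨i, Finset.mem_univ _, Finsupp.mem_support_iff.2 hg⟩

lemma tf_sum (B : Matrix (Fin n) (Fin n) (MonoidAlgebra R G)) (f : G → R) :
    tf f B = ∑ i, ∑ g ∈ dsupp B, (B i i).coeff g * f g := by
  rw [tf_apply]
  exact Finset.sum_congr rfl fun i _ => ell_eq_sum f (dsupp B) (B i i) (mem_dsupp B i)

lemma tf_congr (B : Matrix (Fin n) (Fin n) (MonoidAlgebra R G)) (f f' : G → R)
    (h : ∀ g ∈ dsupp B, f g = f' g) : tf f B = tf f' B := by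
  rw [tf_sum, tf_sum]
  exact Finset.sum_congr rfl fun i _ => Finset.sum_congr rfl fun g hg => by rw [h g hg]

lemma tf_map {Q : Type w} [Group Q] (φ : G →* Q) (f : Q → R)
    (B : Matrix (Fin n) (Fin n) (MonoidAlgebra R G)) :
    tf f (B.map (mapDomainRingHom R φ)) = tf (fun g => f (φ g)) B := by
  rw [tf_apply, tf_apply]
  exact Finset.sum_congr rfl fun i _ => ell_map φ f (B i i)

lemma tf_ind_mk (M : Subgroup G) [M.Normal] (x : G)
    (B : Matrix (Fin n) (Fin n) (MonoidAlgebra R G)) :
    tf (ind R (QuotientGroup.mk' M x)) (B.map (mapDomainRingHom R (QuotientGroup.mk' M))) =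
      tf (cl R M x) B := by
  rw [tf_map]
  rfl

/-- a counterexample modulo `M` -/
def Bad (B : Matrix (Fin n) (Fin n) (MonoidAlgebra R G)) (M : Subgroup G) : Prop :=
  ∃ _ : M.Normal, ∃ x : G, (∀ k : ℕ, 0 < k → x ^ k ∉ M) ∧ tf (cl R M x) B ≠ 0

lemma cl_congr (M : Subgroup G) [M.Normal] {x y : G}
    (h : IsConj (QuotientGroup.mk' M x) (QuotientGroup.mk' M y)) : cl R M x = cl R M y := by
  funext g
  unfold cl
  by_cases h1 : IsConj (QuotientGroup.mk' M g) (QuotientGroup.mk' M x)
  · rw [if_pos h1, if_pos (h1.trans h)]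
  · rw [if_neg h1, if_neg (fun h2 => h1 (h2.trans h.symm))]

/-- the element can be taken in the support -/
lemma bad_supp (B : Matrix (Fin n) (Fin n) (MonoidAlgebra R G)) (M : Subgroup G) [M.Normal]
    (h : Bad B M) : ∃ x ∈ dsupp B, (∀ k : ℕ, 0 < k → x ^ k ∉ M) ∧ tf (cl R M x) B ≠ 0 := by
  obtain ⟨_, x, hx, hne⟩ := h
  obtain ⟨y, hy, hyx⟩ : ∃ y ∈ dsupp B, IsConj (QuotientGroup.mk' M y) (QuotientGroup.mk' M x) := by
    by_contra hcon
    push Not at hcon
    apply hne
    rw [tf_congr B (cl R M x) (fun _ => 0) (fun g hg => if_neg (hcon g hg)), tf_sum]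
    simp
  refine ⟨y, hy, ?_, ?_⟩
  · intro k hk hmem
    apply hx k hk
    have h1 : QuotientGroup.mk' M y ^ k = 1 := by
      rw [← map_pow]; exact (QuotientGroup.eq_one_iff _).2 hmem
    have h2 : IsConj (QuotientGroup.mk' M y ^ k) (QuotientGroup.mk' M x ^ k) := isConj_pow' hyx k
    rw [h1] at h2
    have h3 := isConj_one_right.1 h2
    rw [← map_pow] at h3
    exact (QuotientGroup.eq_one_iff _).1 h3
  · rw [cl_congr M hyx]
    exact hne

/-- finitely many eventual properties along a chain -/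
lemma chain_fin {α : Type w} (c : Set (Subgroup G)) (hne : c.Nonempty) (hc : IsChain (· ≤ ·) c)
    (S : Finset α) (P : α → Subgroup G → Prop)
    (h : ∀ x ∈ S, ∃ M ∈ c, ∀ M' ∈ c, M ≤ M' → P x M') :
    ∃ M ∈ c, ∀ M' ∈ c, M ≤ M' → ∀ x ∈ S, P x M' := by
  classical
  induction S using Finset.induction_on with
  | empty =>
    obtain ⟨M, hM⟩ := hne
    exact ⟨M, hM, by simp⟩
  | insert s S _ ih =>
    obtain ⟨M, hM, hMS⟩ := ih (fun x hx => h x (Finset.mem_insert_of_mem hx))
    obtain ⟨M1, hM1, hM1S⟩ := h s (Finset.mem_insert_self _ _)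
    rcases hc.total hM hM1 with hle | hle
    · refine ⟨M1, hM1, fun M' hM' hle' x hx => ?_⟩
      rcases Finset.mem_insert.1 hx with rfl | hx
      · exact hM1S M' hM' hle'
      · exact hMS M' hM' (hle.trans hle') x hx
    · refine ⟨M, hM, fun M' hM' hle' x hx => ?_⟩
      rcases Finset.mem_insert.1 hx with rfl | hx
      · exact hM1S M' hM' (hle.trans hle')
      · exact hMS M' hM' hle' x hx

lemma isConj_mk_iff (M : Subgroup G) [M.Normal] (a b : G) :
    IsConj (QuotientGroup.mk' M a) (QuotientGroup.mk' M b) ↔ ∃ t : G, b⁻¹ * (t * a * t⁻¹) ∈ M := by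
  constructor
  · intro h
    obtain ⟨q, hq⟩ := isConj_iff.1 h
    obtain ⟨t, rfl⟩ := QuotientGroup.mk'_surjective M q
    refine ⟨t, (QuotientGroup.eq_one_iff _).1 ?_⟩
    show QuotientGroup.mk' M (b⁻¹ * (t * a * t⁻¹)) = 1
    rw [map_mul, map_inv, map_mul, map_mul, map_inv, hq, inv_mul_cancel]
  · rintro ⟨t, ht⟩
    refine isConj_iff.2 ⟨QuotientGroup.mk' M t, ?_⟩
    have h1 : QuotientGroup.mk' M (b⁻¹ * (t * a * t⁻¹)) = 1 := (QuotientGroup.eq_one_iff _).2 ht
    rw [map_mul, map_inv, map_mul, map_mul, map_inv] at h1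
    exact (inv_mul_eq_one.1 h1).symm

/-- unions of chains of counterexamples -/
theorem bad_union (B : Matrix (Fin n) (Fin n) (MonoidAlgebra R G)) (c : Set (Subgroup G))
    (hne : c.Nonempty) (hc : IsChain (· ≤ ·) c) (hall : ∀ M ∈ c, Bad B M) : Bad B (sSup c) := by
  classical
  have hdir : DirectedOn (· ≤ ·) c := hc.directedOn
  have hmem : ∀ g, g ∈ sSup c ↔ ∃ M ∈ c, g ∈ M := fun g =>
    Subgroup.mem_sSup_of_directedOn hne hdir
  have hnorm : (sSup c).Normal := by
    refine ⟨fun n hn g => ?_⟩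
    obtain ⟨M, hM, hnM⟩ := (hmem n).1 hn
    obtain ⟨hMn, -⟩ := hall M hM
    exact (hmem _).2 ⟨M, hM, hMn.conj_mem n hnM g⟩
  by_contra hbad
  -- for every element of the support the union is not bad at it
  have hx : ∀ x ∈ dsupp B, ∃ M ∈ c, ∀ M' ∈ c, M ≤ M' →
      ¬ ((∀ k : ℕ, 0 < k → x ^ k ∉ M') ∧ ∃ _ : M'.Normal, tf (cl R M' x) B ≠ 0) := by
    intro x _
    by_cases hk : ∀ k : ℕ, 0 < k → x ^ k ∉ sSup c
    · -- the trace vanishes
      have h0 : tf (cl R (sSup c) x) B = 0 := by
        by_contra h0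
        exact hbad ⟨hnorm, x, hk, h0⟩
      -- stabilisation
      obtain ⟨M, hM, hMst⟩ := chain_fin c hne hc (dsupp B)
        (fun h M' => (∃ t : G, x⁻¹ * (t * h * t⁻¹) ∈ sSup c) → ∃ t : G, x⁻¹ * (t * h * t⁻¹) ∈ M')
        (by
          intro h _
          by_cases hh : ∃ t : G, x⁻¹ * (t * h * t⁻¹) ∈ sSup c
          · obtain ⟨t, ht⟩ := hh
            obtain ⟨M, hM, htM⟩ := (hmem _).1 ht
            exact ⟨M, hM, fun M' _ hle _ => ⟨t, hle htM⟩⟩
          · obtain ⟨M, hM⟩ := hne
            exact ⟨M, hM, fun M' _ _ h1 => absurd h1 hh⟩)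
      refine ⟨M, hM, fun M' hM' hle => ?_⟩
      rintro ⟨-, hM'n, hne'⟩
      apply hne'
      rw [← h0]
      apply tf_congr
      intro h hh
      unfold cl
      have e : IsConj (QuotientGroup.mk' M' h) (QuotientGroup.mk' M' x) ↔
          IsConj (QuotientGroup.mk' (sSup c) h) (QuotientGroup.mk' (sSup c) x) := by
        rw [isConj_mk_iff, isConj_mk_iff]
        constructor
        · rintro ⟨t, ht⟩
          exact ⟨t, (le_sSup hM') ht⟩
        · intro h1
          exact hMst M' hM' hle h hh h1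
      simp only [e]
    · push Not at hk
      obtain ⟨k, hk0, hk1⟩ := hk
      obtain ⟨M, hM, hkM⟩ := (hmem _).1 hk1
      exact ⟨M, hM, fun M' _ hle h1 => h1.1 k hk0 (hle hkM)⟩
  obtain ⟨M, hM, hMS⟩ := chain_fin c hne hc (dsupp B) _ hx
  obtain ⟨hMn, -⟩ := hall M hM
  obtain ⟨x, hxS, hx1, hx2⟩ := bad_supp B M (hall M hM)
  exact hMS M hM le_rfl x hxS ⟨hx1, hMn, hx2⟩

/-- the lifting theorem for one matrix -/
theorem lift_one [IsDomain R] (hR : NoUnitPrimes R) (N : Subgroup G) [N.Normal] (hN : Unmixed N)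
    (A : Matrix (Fin n) (Fin n) (MonoidAlgebra R G)) (hA' : A * A = A)
    (hQ : ∀ g : G, g ∉ N → tf (ind R (QuotientGroup.mk' N g))
      (A.map (mapDomainRingHom R (QuotientGroup.mk' N))) = 0) (g : G)
    (hfin : orderOf g = 0) : tf (ind R g) A = 0 := by
  classical
  by_contra hne
  have hgAD := fullyAD_of_tf hR A hA' g hne
  -- `g` is not in `N`
  have hgN : g ∉ N := by
    intro hgN
    have h1 := hN 1 g hgN (fun k _ => ⟨1, le_rfl, by rw [one_pow]⟩) (by rw [one_mul]; exact hgAD)
    rw [one_mul] at h1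
    have h2 : g = 1 := isConj_one_right.1 h1
    rw [h2, orderOf_one] at hfin
    exact one_ne_zero hfin
  have hQ0 := hQ g hgN
  let f' : G → R := fun h => if IsConj (QuotientGroup.mk' N h) (QuotientGroup.mk' N g) ∧
    ¬ IsConj h g then 1 else 0
  have hf' : tf f' A = 0 := by
    rw [tf_apply, ← map_sum]
    apply ell_class
    · intro a b hab
      have e1 : IsConj (QuotientGroup.mk' N a) (QuotientGroup.mk' N g) ↔
          IsConj (QuotientGroup.mk' N b) (QuotientGroup.mk' N g) := by
        have h3 := MonoidHom.map_isConj (QuotientGroup.mk' N) hab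
        exact ⟨fun h => h3.symm.trans h, fun h => h3.trans h⟩
      have e2 : IsConj a g ↔ IsConj b g := ⟨fun h => hab.symm.trans h, fun h => hab.trans h⟩
      simp only [f', e1, e2]
    · intro h hh
      have hh' : IsConj (QuotientGroup.mk' N h) (QuotientGroup.mk' N g) ∧ ¬ IsConj h g := by
        by_contra h4
        exact hh (if_neg h4)
      by_contra hne'
      have hne2 : tf (ind R h) A ≠ 0 := by
        rw [tf_apply, ← map_sum]
        exact hne'
      have hhAD := fullyAD_of_tf hR A hA' h hne2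
      apply hh'.2
      -- conjugate `h` into `g N`
      obtain ⟨q, hq⟩ := isConj_iff.1 hh'.1
      obtain ⟨c, rfl⟩ := QuotientGroup.mk'_surjective N q
      have h5 : g⁻¹ * (c * h * c⁻¹) ∈ N := by
        have h6 : QuotientGroup.mk' N (g⁻¹ * (c * h * c⁻¹)) = 1 := by
          rw [map_mul, map_inv, map_mul, map_mul, map_inv, hq, inv_mul_cancel]
        exact (QuotientGroup.eq_one_iff _).1 h6
      have h7 : g * (g⁻¹ * (c * h * c⁻¹)) = c * h * c⁻¹ := by group
      have h8 : IsConj h (c * h * c⁻¹) := isConj_iff.2 ⟨c, rfl⟩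
      have h9 : FullyAD (c * h * c⁻¹) := by
        intro k hk
        obtain ⟨J, hJ, h10⟩ := hhAD k hk
        exact ⟨J, hJ, h8.symm.trans (h10.trans (isConj_pow' h8 _))⟩
      have h11 := hN g (g⁻¹ * (c * h * c⁻¹)) h5 hgAD (by rw [h7]; exact h9)
      rw [h7] at h11
      exact h8.trans h11.symm
  -- comparison
  apply hne
  have h1 : tf (ind R (QuotientGroup.mk' N g)) (A.map (mapDomainRingHom R (QuotientGroup.mk' N))) =
      tf (ind R g) A + tf f' A := by
    have e1 : ∀ x : MonoidAlgebra R G, ell (ind R (QuotientGroup.mk' N g))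
        (mapDomainRingHom R (QuotientGroup.mk' N) x) = ell (ind R g) x + ell f' x := by
      intro x
      induction x using MonoidAlgebra.induction_linear with
      | zero => simp
      | add x y hx hy => simp only [map_add, hx, hy]; ring
      | single h r =>
        rw [ell_map, ell_single, ell_single, ell_single, ← mul_add]
        congr 1
        show ind R (QuotientGroup.mk' N g) (QuotientGroup.mk' N h) = ind R g h + f' h
        unfold ind
        simp only [f']
        by_cases h2 : IsConj h g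
        · have h3 := MonoidHom.map_isConj (QuotientGroup.mk' N) h2
          rw [if_pos h3, if_pos h2, if_neg (fun h4 => h4.2 h2), add_zero]
        · by_cases h3 : IsConj (QuotientGroup.mk' N h) (QuotientGroup.mk' N g)
          · rw [if_pos h3, if_neg h2, if_pos ⟨h3, h2⟩, zero_add]
          · rw [if_neg h3, if_neg h2, if_neg (fun h4 => h3 h4.1), zero_add]
    rw [tf_apply, tf_apply, tf_apply, ← Finset.sum_add_distrib]
    exact Finset.sum_congr rfl (fun i _ => e1 (A i i))
  rw [hQ0, hf', add_zero] at h1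
  exact h1.symm

/-- the critical quotient -/
theorem exists_crit [IsDomain R] (B : Matrix (Fin n) (Fin n) (MonoidAlgebra R G)) (hB : B * B = B)
    (x : G) (hx0 : orderOf x = 0) (hx : tf (ind R x) B ≠ 0) (N : Subgroup G) :
    ∃ (M : Subgroup G) (_ : M.Normal), M ≤ N ∧
      (∃ y : G ⧸ M, orderOf y = 0 ∧
        tf (ind R y) (B.map (mapDomainRingHom R (QuotientGroup.mk' M))) ≠ 0) ∧
      ∀ (L : Subgroup (G ⧸ M)) [L.Normal], L.comap (QuotientGroup.mk' M) ≤ N → L ≠ ⊥ →
        ∀ z : (G ⧸ M) ⧸ L, ¬ IsUnit ((orderOf z : ℕ) : R) →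
        tf (ind R z) ((B.map (mapDomainRingHom R (QuotientGroup.mk' M))).map
          (mapDomainRingHom R (QuotientGroup.mk' L))) = 0 := by
  classical
  have hbot : Bad B (⊥ : Subgroup G) := by
    refine ⟨inferInstance, x, ?_, ?_⟩
    · intro k hk hmem
      have h1 : x ^ k = 1 := Subgroup.mem_bot.1 hmem
      have h2 := orderOf_pos_iff.2 (isOfFinOrder_iff_pow_eq_one.2 ⟨k, hk, h1⟩)
      omega
    · have e : cl R (⊥ : Subgroup G) x = ind R x := by
        funext g
        unfold cl ind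
        have e1 : IsConj (QuotientGroup.mk' (⊥ : Subgroup G) g) (QuotientGroup.mk' ⊥ x) ↔
            IsConj g x := by
          rw [isConj_mk_iff, isConj_iff]
          constructor
          · rintro ⟨t, ht⟩
            exact ⟨t, (inv_mul_eq_one.1 (Subgroup.mem_bot.1 ht)).symm⟩
          · rintro ⟨t, ht⟩
            exact ⟨t, Subgroup.mem_bot.2 (by rw [ht, inv_mul_cancel])⟩
        simp only [e1]
      rw [e]
      exact hx
  obtain ⟨M, -, hM⟩ := zorn_le_nonempty₀ {M | Bad B M ∧ M ≤ N} (by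
    intro c hc hchain y hy
    refine ⟨sSup c, ⟨?_, sSup_le fun z hz => (hc hz).2⟩, fun z hz => le_sSup hz⟩
    exact bad_union B c ⟨y, hy⟩ hchain fun M hM => (hc hM).1) ⊥ ⟨hbot, bot_le⟩
  obtain ⟨⟨hMn, y, hy1, hy2⟩, hMN⟩ := hM.prop
  refine ⟨M, hMn, hMN, ⟨QuotientGroup.mk' M y, ?_, ?_⟩, ?_⟩
  · rw [orderOf_eq_zero_iff']
    intro k hk h1
    rw [← map_pow] at h1
    exact hy1 k hk ((QuotientGroup.eq_one_iff _).1 h1)
  · rw [tf_ind_mk]
    exact hy2
  · intro L hLn hLN hL z hz
    by_cases hfin : orderOf z = 0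
    swap
    · refine tf_zero_of_finite _ ?_ z hfin hz
      rw [← Matrix.map_mul, ← Matrix.map_mul, hB]
    obtain ⟨g', rfl⟩ := QuotientGroup.mk'_surjective L z
    obtain ⟨g, rfl⟩ := QuotientGroup.mk'_surjective M g'
    by_contra hne
    let M' : Subgroup G := L.comap (QuotientGroup.mk' M)
    have hM'n : M'.Normal := hLn.comap _
    have hM' : Bad B M' := by
      refine ⟨hM'n, g, ?_, ?_⟩
      · intro k hk hmem
        rw [orderOf_eq_zero_iff'] at hfin
        apply hfin k hk
        rw [← map_pow, ← map_pow]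
        exact (QuotientGroup.eq_one_iff _).2 hmem
      · rw [tf_map, tf_map] at hne
        intro h0
        apply hne
        rw [← h0]
        apply tf_congr
        intro h _
        unfold ind cl
        have e : IsConj (QuotientGroup.mk' L (QuotientGroup.mk' M h))
            (QuotientGroup.mk' L (QuotientGroup.mk' M g)) ↔
            IsConj (QuotientGroup.mk' M' h) (QuotientGroup.mk' M' g) := by
          rw [isConj_mk_iff, isConj_mk_iff]
          constructor
          · rintro ⟨t', ht⟩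
            obtain ⟨t, rfl⟩ := QuotientGroup.mk'_surjective M t'
            refine ⟨t, ?_⟩
            show QuotientGroup.mk' M (g⁻¹ * (t * h * t⁻¹)) ∈ L
            rw [map_mul, map_inv, map_mul, map_mul, map_inv]
            exact ht
          · rintro ⟨t, ht⟩
            refine ⟨QuotientGroup.mk' M t, ?_⟩
            have h2 : QuotientGroup.mk' M (g⁻¹ * (t * h * t⁻¹)) ∈ L := ht
            rw [map_mul, map_inv, map_mul, map_mul, map_inv] at h2
            exact h2
        simp only [e]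
    have hle : M ≤ M' := by
      intro g hg
      show (QuotientGroup.mk' M) g ∈ L
      have : (QuotientGroup.mk' M) g = 1 := (QuotientGroup.eq_one_iff g).2 hg
      rw [this]
      exact L.one_mem
    have hge : M' ≤ M := hM.le_of_ge ⟨hM', hLN⟩ hle
    apply hL
    rw [eq_bot_iff]
    intro z hz
    obtain ⟨g, rfl⟩ := QuotientGroup.mk_surjective z
    have : g ∈ M := hge hz
    exact Subgroup.mem_bot.2 ((QuotientGroup.eq_one_iff g).2 this)

/-- The subgroup of the elements with finitely many conjugates. -/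
def fcc (G : Type v) [Group G] : Subgroup G where
  carrier := {a | {b | IsConj a b}.Finite}
  one_mem' := by
    show {b | IsConj (1 : G) b}.Finite
    have : {b | IsConj (1 : G) b} = {1} := by
      ext b
      exact isConj_one_right
    rw [this]
    exact Set.finite_singleton 1
  mul_mem' := by
    intro a b ha hb
    refine (Set.Finite.image2 (fun x y => x * y) ha hb).subset ?_
    intro c hc
    obtain ⟨t, ht⟩ := isConj_iff.1 hc
    refine ⟨t * a * t⁻¹, isConj_iff.2 ⟨t, rfl⟩, t * b * t⁻¹, isConj_iff.2 ⟨t, rfl⟩, ?_⟩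
    show t * a * t⁻¹ * (t * b * t⁻¹) = c
    rw [← ht]
    group
  inv_mem' := by
    intro a ha
    refine (Set.Finite.image (fun x => x⁻¹) ha).subset ?_
    intro c hc
    obtain ⟨t, ht⟩ := isConj_iff.1 hc
    refine ⟨t * a * t⁻¹, isConj_iff.2 ⟨t, rfl⟩, ?_⟩
    show (t * a * t⁻¹)⁻¹ = c
    rw [← ht]
    group

instance fcc_normal (G : Type v) [Group G] : (fcc G).Normal := by
  refine ⟨fun a ha g => ?_⟩
  refine Set.Finite.subset (s := {b | IsConj a b}) ha ?_
  intro c hc
  have h1 : IsConj a (g * a * g⁻¹) := isConj_iff.2 ⟨g, rfl⟩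
  exact h1.trans hc

/-- The properties of the critical quotients. -/
def Mixing (Q : Type v) [Group Q] : Prop :=
  (∀ a : Q, a ≠ 1 → {b | IsConj a b}.Infinite) ∧
  (∀ (L : Subgroup Q) [L.Normal], L ≠ ⊥ → ∃ s : Q, ∃ a ∈ L,
    FullyAD s ∧ FullyAD (s * a) ∧ ¬ IsConj s (s * a)) ∧
  ∀ (L : Subgroup Q) [L.Normal], L ≠ ⊥ →
    (∀ z ∈ L, z ∈ Subgroup.centralizer (L : Set Q) → ∃ k : ℕ, 1 ≤ k ∧ z ^ k = 1) →
    ¬ FGResFinite L ∧ ¬ NormallyResFinite L ∧
      ∀ p : ℕ, p.Prime → ¬ PChainFin p (Q ⧸ Subgroup.centralizer (L : Set Q))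

/-- `B` is an idempotent matrix over `R[Q]` with a nonzero rank at an element of infinite order,
but the ranks of the images of `B` over all proper quotients of `Q` vanish outside `1`. -/
def Critical (R : Type u) [CommRing R] {Q : Type v} [Group Q] {n : ℕ}
    (B : Matrix (Fin n) (Fin n) (MonoidAlgebra R Q)) : Prop :=
  IsIdempotentElem B ∧ (∃ x : Q, orderOf x = 0 ∧ tau B x ≠ 0) ∧
  ∀ (L : Subgroup Q) [L.Normal], L ≠ ⊥ → ∀ z : Q ⧸ L, z ≠ 1 →
    tau (B.map (mapDomainRingHom R (QuotientGroup.mk' L))) z = 0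

lemma not_unit_of_ne (hR : NoUnitPrimes R) {Q : Type w} [Group Q] (z : Q) (hz : z ≠ 1) :
    ¬ IsUnit ((orderOf z : ℕ) : R) := by
  have h1 : orderOf z ≠ 1 := by
    rw [Ne, orderOf_eq_one_iff]
    exact hz
  obtain ⟨p, hp, hpd⟩ := Nat.exists_prime_and_dvd h1
  intro hu
  obtain ⟨d, hd⟩ := hpd
  rw [hd, Nat.cast_mul] at hu
  exact hR p hp (isUnit_of_mul_isUnit_left hu)

/-- nontrivial normal subgroups of critical groups are not unmixed -/
theorem not_unmixed [IsDomain R] (hR : NoUnitPrimes R)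
    (B : Matrix (Fin n) (Fin n) (MonoidAlgebra R G)) (hB : Critical R B) (L : Subgroup G)
    [L.Normal] (hL : L ≠ ⊥) : ¬ Unmixed L := by
  intro hU
  obtain ⟨hB1, ⟨x, hx0, hx⟩, hB2⟩ := hB
  apply hx
  rw [tau_eq]
  refine lift_one hR L hU B hB1 ?_ x hx0
  intro g hg
  rw [← tau_eq]
  refine hB2 L hL _ ?_
  intro h1
  exact hg ((QuotientGroup.eq_one_iff g).1 h1)

theorem mixing_of_critical [IsDomain R] (hR : NoUnitPrimes R)
    (B : Matrix (Fin n) (Fin n) (MonoidAlgebra R G)) (hB : Critical R B) : Mixing G := by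
  refine ⟨?_, ?_, ?_⟩
  · intro a ha hfin
    have h1 : fcc G ≠ ⊥ := by
      intro h2
      apply ha
      have h3 : a ∈ fcc G := hfin
      rw [h2] at h3
      exact Subgroup.mem_bot.1 h3
    apply not_unmixed hR B hB (fcc G) h1
    exact unmixed_of_special (fcc G) inferInstance
      ⟨fun z hz _ => ⟨1, le_rfl, by rw [pow_one]; exact hz⟩, Or.inl fun z hz => hz⟩
  · intro L hLn hL
    have h1 := not_unmixed hR B hB L hL
    unfold Unmixed at h1
    push Not at h1
    obtain ⟨s, a, ha, h2, h3, h4⟩ := h1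
    exact ⟨s, a, ha, h2, h3, h4⟩
  · intro L hLn hL hZ
    have hT : TameCentre L := by
      intro z hz hz2
      obtain ⟨k, hk, hk1⟩ := hZ z hz hz2
      refine ⟨k, hk, ?_⟩
      rw [hk1]
      have : {b | IsConj (1 : G) b} = {1} := by
        ext b
        exact isConj_one_right
      rw [this]
      exact Set.finite_singleton 1
    refine ⟨fun h => ?_, fun h => ?_, fun p hp h => ?_⟩
    · exact not_unmixed hR B hB L hL (unmixed_of_special L hLn ⟨hT, Or.inr (Or.inl h)⟩)
    · exact not_unmixed hR B hB L hL (unmixed_of_special L hLn ⟨hT, Or.inr (Or.inr (Or.inl h))⟩)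
    · exact not_unmixed hR B hB L hL
        (unmixed_of_special L hLn ⟨hT, Or.inr (Or.inr (Or.inr ⟨hLn, p, hp, h⟩))⟩)

/-- a matrix with a nonzero rank at an element of infinite order, from a failure of the
conjecture -/
lemma exists_of_not [IsDomain R] (hG : ¬ BassFor R G) :
    ∃ (n : ℕ) (A : Matrix (Fin n) (Fin n) (MonoidAlgebra R G)) (_ : A * A = A) (g : G),
      orderOf g = 0 ∧ tf (ind R g) A ≠ 0 := by
  unfold BassFor at hG
  push Not at hG
  obtain ⟨n, A, hA, g, hg, hne⟩ := hG
  have hne' : tau A g ≠ 0 := hne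
  rw [tau_eq] at hne'
  refine ⟨n, A, hA, g, ?_, hne'⟩
  by_contra hfin
  exact hne' (tf_zero_of_finite A hA g hfin hg)

/-- Every nontrivial quotient `N / M`, `M` normal in `G`, contains a nontrivial unmixed or special
normal subgroup `L / M` of `G / M`. -/
def HyperUnmixed (N : Subgroup G) : Prop :=
  ∀ (M : Subgroup G) [M.Normal], M < N → ∃ (L : Subgroup G) (_ : L.Normal), M < L ∧ L ≤ N ∧
    (Unmixed (L.map (QuotientGroup.mk' M)) ∨ SpecialKernel (L.map (QuotientGroup.mk' M)))

/-- **Lifting through transfinite series.** -/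
theorem hyper_lift [IsDomain R] (hR : NoUnitPrimes R) (N : Subgroup G) [N.Normal]
    (hN : HyperUnmixed N) (hQ : BassFor R (G ⧸ N)) : BassFor R G := by
  by_contra hG
  obtain ⟨n, A, hA, g, hg0, hg⟩ := exists_of_not hG
  obtain ⟨M, hMn, hMN, ⟨y, hy0, hy⟩, hMZ⟩ := exists_crit A hA g hg0 hg N
  rcases eq_or_lt_of_le hMN with rfl | hlt
  · apply hy
    rw [← tau_eq]
    refine hQ n _ ?_ y ?_
    · show _ * _ = _
      rw [← Matrix.map_mul, hA]
    · rw [hy0, Nat.cast_zero]
      exact not_isUnit_zero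
  · obtain ⟨L, hLn, hML, hLN, hL⟩ := hN M hlt
    have hn : (L.map (QuotientGroup.mk' M)).Normal :=
      Subgroup.Normal.map hLn _ (QuotientGroup.mk'_surjective _)
    have hU : Unmixed (L.map (QuotientGroup.mk' M)) := by
      rcases hL with h | h
      · exact h
      · exact unmixed_of_special _ hn h
    have hcomap : (L.map (QuotientGroup.mk' M)).comap (QuotientGroup.mk' M) = L := by
      rw [Subgroup.comap_map_eq, QuotientGroup.ker_mk', sup_eq_left]
      exact hML.le
    have hne : L.map (QuotientGroup.mk' M) ≠ ⊥ := by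
      intro h
      rw [h] at hcomap
      have h1 : (⊥ : Subgroup (G ⧸ M)).comap (QuotientGroup.mk' M) = M := by
        rw [MonoidHom.comap_bot, QuotientGroup.ker_mk']
      rw [h1] at hcomap
      exact hML.ne hcomap
    apply hy
    refine lift_one hR _ hU _ ?_ ?_ y hy0
    · rw [← Matrix.map_mul, hA]
    · intro q hq
      refine hMZ _ (by rw [hcomap]; exact hLN) hne _ (not_unit_of_ne hR _ ?_)
      intro h1
      exact hq ((QuotientGroup.eq_one_iff q).1 h1)

/-- For every normal subgroup `M` of `G` properly contained in `N`, either there is a normal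
subgroup `L` of `G`, `M < L ≤ N`, such that `L / M` is unmixed or special in `G / M`, or `N / M`
contains a nontrivial element with finitely many conjugates in `G / M`. (The second alternative for
all `M` means that `N` is contained in the FC-hypercentre of `G`.) -/
def HyperLift (N : Subgroup G) : Prop :=
  ∀ (M : Subgroup G) [M.Normal], M < N →
    (∃ (L : Subgroup G) (_ : L.Normal), M < L ∧ L ≤ N ∧
      (Unmixed (L.map (QuotientGroup.mk' M)) ∨ SpecialKernel (L.map (QuotientGroup.mk' M)))) ∨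
    ∃ a ∈ N, a ∉ M ∧ {b : G ⧸ M | IsConj (QuotientGroup.mk' M a) b}.Finite

lemma hyperUnmixed_of_lift (N : Subgroup G) [N.Normal] (hN : HyperLift N) : HyperUnmixed N := by
  intro M hMn hlt
  rcases hN M hlt with h | ⟨a, haN, haM, hfin⟩
  · exact h
  refine ⟨(fcc (G ⧸ M)).comap (QuotientGroup.mk' M) ⊓ N, ?_, ?_, inf_le_right, Or.inr ?_⟩
  · have : ((fcc (G ⧸ M)).comap (QuotientGroup.mk' M)).Normal := (fcc_normal (G ⧸ M)).comap _
    exact Subgroup.normal_inf_normal _ _
  · refine lt_of_le_of_ne (le_inf ?_ hlt.le) ?_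
    · intro g hg
      show QuotientGroup.mk' M g ∈ fcc (G ⧸ M)
      have : (QuotientGroup.mk' M) g = 1 := (QuotientGroup.eq_one_iff g).2 hg
      rw [this]
      exact one_mem _
    · intro h
      apply haM
      rw [h]
      exact ⟨hfin, haN⟩
  · have hall : ∀ z ∈ ((fcc (G ⧸ M)).comap (QuotientGroup.mk' M) ⊓ N).map (QuotientGroup.mk' M),
        {b | IsConj z b}.Finite := by
      rintro _ ⟨z, hz, rfl⟩
      exact hz.1
    exact ⟨fun z hz _ => ⟨1, le_rfl, by rw [pow_one]; exact hall z hz⟩, Or.inl hall⟩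

/-- **Critical quotients.** -/
theorem main [IsDomain R] (hR : NoUnitPrimes R) (hG : ¬ BassFor R G) :
    ∃ (H : Subgroup G) (_ : H.FG) (M : Subgroup H) (_ : M.Normal) (n : ℕ)
      (B : Matrix (Fin n) (Fin n) (MonoidAlgebra R (H ⧸ M))), Critical R B ∧ Mixing (H ⧸ M) := by
  obtain ⟨n, A, hA, g, hfin, hne'⟩ := exists_of_not hG
  obtain ⟨H, hH, B, hB, h, hc, hh⟩ := exists_local A hA g hne'
  have hh0 : orderOf h = 0 := by
    obtain ⟨c, hc'⟩ := isConj_iff.1 hc
    rw [orderOf_eq_zero_iff']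
    intro k hk h1
    rw [orderOf_eq_zero_iff'] at hfin
    apply hfin k hk
    have h2 : (h : G) ^ k = 1 := by rw [← Subgroup.coe_pow, h1]; rfl
    rw [← hc', conj_pow, h2]
    group
  obtain ⟨M, hMn, -, ⟨y, hy0, hy⟩, hMZ⟩ := exists_crit B hB h hh0 hh ⊤
  have hcrit : Critical R (B.map (mapDomainRingHom R (QuotientGroup.mk' M))) := by
    refine ⟨?_, ⟨y, hy0, ?_⟩, ?_⟩
    · show _ * _ = _
      rw [← Matrix.map_mul, hB]
    · rw [tau_eq]
      exact hy
    · intro L hLn hL z hz
      rw [tau_eq]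
      exact hMZ L le_top hL z (not_unit_of_ne hR z hz)
  exact ⟨H, hH, M, hMn, n, _, hcrit, mixing_of_critical hR _ hcrit⟩

end

end Pool.Agent.R934.BC
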