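import Mathlib
import Pool.Agent.H26R2.Bass.Main

set_option autoImplicit false

/-!
The Bass trace conjecture for groups with a transfinite series of good factors.
-/

namespace Pool.Agent.R934.BC

open MonoidAlgebra
open Pool.Agent.H26R2.Bass
open Pool.Agent.H26R2.IdemLI (AlmostDiv ChainFin FinRankAb FinOrd finOrd_one no_div_abelian
  no_div_chainFin)

universe u v w

section

variable {G : Type v} [Group G]

/-- Every nontrivial quotient `N / M`, `M` normal in `G`, has a nontrivial good factor `L / M`, `L`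
normal in `G`. -/
def HyperGood (R : Type u) [CommRing R] [IsDomain R] (N : Subgroup G) : Prop :=
  ∀ (M : Subgroup G) [M.Normal], M < N → ∃ (L : Subgroup G) (_ : L.Normal), M < L ∧ L ≤ N ∧
    GoodFactor R M L

/-- `G` has a normal subgroup `N` with a transfinite good series such that all elements `h` of
finitely generated subgroups `H` of `G` without powers in `N` have a good image in some quotient
of `H`. -/
def TransAdmissible (R : Type u) [CommRing R] [IsDomain R] (G : Type v) [Group G] : Prop :=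
  ∃ N : Subgroup G, HyperGood R N ∧ ∀ H : Subgroup G, H.FG → ∀ h : H,
    (∀ c : ℕ, 0 < c → (h : G) ^ c ∉ N) →
      ∃ (M : Subgroup H) (_ : M.Normal), Good R (QuotientGroup.mk' M h)

/-- one good factor -/
theorem good_of_factor {R : Type u} [CommRing R] [IsDomain R] (M L : Subgroup G) [M.Normal]
    [L.Normal] (hfac : GoodFactor R M L) (H : Subgroup G) (hH : H.FG) (h : H)
    (hno : ∀ c : ℕ, 0 < c → (h : G) ^ c ∉ M) {c : ℕ} (hc : 0 < c) (hci : (h : G) ^ c ∈ L) :
    Good R h := by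
  classical
  let f : H →* G ⧸ M := (QuotientGroup.mk' M).comp H.subtype
  have hf : ∀ n : ℕ, 0 < n → f h ^ n ≠ 1 := by
    intro n hn h1
    rw [← map_pow] at h1
    exact hno n hn ((QuotientGroup.eq_one_iff _).1 h1)
  have hinf : ¬ FinOrd (f h ^ c) := by
    rintro ⟨n, hn, h1⟩
    rw [← pow_mul] at h1
    exact hf _ (Nat.mul_pos hc hn) h1
  have hA : f h ^ c ∈ L.map (QuotientGroup.mk' M) := by
    refine ⟨(h : G) ^ c, hci, ?_⟩
    rw [map_pow]
    rfl
  have hnorm : (L.map (QuotientGroup.mk' M)).Normal :=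
    Subgroup.Normal.map inferInstance _ (QuotientGroup.mk'_surjective _)
  -- powers and images
  have hAD : AlmostDiv h → AlmostDiv (f h ^ c) := fun h1 => (h1.map f).pow c
  have hPD : ∀ q : ℕ, IsConj h (h ^ q) → IsConj (f h ^ c) ((f h ^ c) ^ q) := by
    intro q h1
    obtain ⟨x, hx⟩ := isConj_iff.1 h1
    refine isConj_iff.2 ⟨f x, ?_⟩
    rw [← conj_pow, ← map_inv, ← map_mul, ← map_mul, hx, map_pow, ← pow_mul, ← pow_mul, mul_comm]
  rcases hfac with h1 | h1 | h1 | ⟨p, hp, hpR, h1⟩ | ⟨hchar, h1 | h1⟩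
  · obtain ⟨n, hn, h2⟩ := h1 _ hci
    rw [← pow_mul] at h2
    exact absurd h2 (hno _ (Nat.mul_pos hc hn))
  · by_cases hR : CharZero R
    · exact Or.inr (Or.inr ⟨hR, fun h2 => hinf (no_div_FC _ (h1 _ hA) (hAD h2))⟩)
    · obtain ⟨p, hp⟩ := CharP.exists R
      have hp0 : p ≠ 0 := by
        rintro rfl
        exact hR (CharP.charP_to_charZero R)
      have hpp : p.Prime := (CharP.char_is_prime_or_zero R p).resolve_right hp0
      refine Or.inr (Or.inl ⟨p, hpp, ?_, fun i hi h2 => ?_⟩)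
      · rw [CharP.cast_eq_zero]
        exact not_isUnit_zero
      · exact hinf (no_p_FC hpp _ (h1 _ hA) hi (hPD _ h2))
  · obtain ⟨φ, z, hz, hφ⟩ := (h1 _ hA).resolve_left hinf
    left
    let ψ : Subgroup.centralizer {h} →* Subgroup.centralizer {f h ^ c} :=
      (f.comp (Subgroup.centralizer {h}).subtype).codRestrict _ (by
        intro x
        rw [Subgroup.mem_centralizer_singleton_iff]
        have hx := Subgroup.mem_centralizer_singleton_iff.1 x.2
        have h2 : Commute (f (x : H)) (f h) := by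
          show f x * f h = f h * f x
          rw [← map_mul, ← map_mul, hx]
        exact h2.pow_right c)
    have hmem : h ∈ Subgroup.centralizer {h} := Subgroup.mem_centralizer_singleton_iff.2 rfl
    refine ⟨φ.comp ψ, ⟨h, hmem⟩, rfl, fun h2 => hφ ?_⟩
    have h3 : z = ψ ⟨h, hmem⟩ ^ c := by
      apply Subtype.ext
      rw [hz]
      rfl
    rw [h3, map_pow]
    have h4 : φ (ψ ⟨h, hmem⟩) = 1 := h2
    rw [h4, one_pow]
  · exact Or.inr (Or.inl ⟨p, hp, hpR, fun i hi h2 => hinf (no_p_chain _ h1 _ hA hi (hPD _ h2))⟩)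
  · refine Or.inr (Or.inr ⟨hchar, fun h2 => hinf ?_⟩)
    obtain ⟨hcomm, F, hF, hrank⟩ := h1
    obtain ⟨T, hT⟩ := hH
    obtain ⟨m, J, hm, hJ, hAD'⟩ := h2.pow c
    have hfc : f h ^ c = f (h ^ c) := (map_pow f h c).symm
    rw [hfc] at hA ⊢
    exact no_div_abelian (L.map (QuotientGroup.mk' M)) hcomm F hF hrank
      (T.image (QuotientGroup.mk' M)) (f (h ^ c)) hA m J hm hJ (by
        intro n hn
        obtain ⟨x, hx⟩ := isConj_iff.1 (hAD' n hn)
        refine ⟨f x, ?_, ?_⟩
        · rw [Finset.coe_image, ← MonoidHom.map_closure, hT]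
          exact Subgroup.mem_map_of_mem _ x.2
        · rw [← map_inv, ← map_mul, ← map_mul, hx, map_pow])
  · exact Or.inr (Or.inr ⟨hchar, fun h2 => hinf (no_div_chainFin _ h1 _ hA (hAD h2))⟩)

/-- elements of infinite order of finitely generated subgroups are good -/
theorem good_of_hyper {R : Type u} [CommRing R] [IsDomain R] (N : Subgroup G)
    (hG : HyperGood R N) (H : Subgroup G) (hH : H.FG) (h : H)
    (hh : ¬ ∃ n : ℕ, 0 < n ∧ h ^ n = 1) (hN : ∃ c : ℕ, 0 < c ∧ (h : G) ^ c ∈ N) : Good R h := by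
  classical
  obtain ⟨M, -, hM⟩ := zorn_le_nonempty₀
    {M : Subgroup G | M.Normal ∧ M ≤ N ∧ ∀ c : ℕ, 0 < c → (h : G) ^ c ∉ M} (by
      intro c hc hchain y hy
      have hmem : ∀ g, g ∈ sSup c ↔ ∃ M ∈ c, g ∈ M := fun g =>
        Subgroup.mem_sSup_of_directedOn ⟨y, hy⟩ hchain.directedOn
      refine ⟨sSup c, ⟨⟨fun n hn g => ?_⟩, sSup_le fun z hz => (hc hz).2.1, fun k hk hk1 => ?_⟩,
        fun z hz => le_sSup hz⟩
      · obtain ⟨M, hM, hnM⟩ := (hmem n).1 hn
        exact (hmem _).2 ⟨M, hM, (hc hM).1.conj_mem n hnM g⟩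
      · obtain ⟨M, hM, hkM⟩ := (hmem _).1 hk1
        exact (hc hM).2.2 k hk hkM) ⊥ ⟨inferInstance, bot_le, fun c hc hm =>
          hh ⟨c, hc, Subtype.ext (Subgroup.mem_bot.1 hm)⟩⟩
  obtain ⟨hMn, hMN, hMc⟩ := hM.prop
  have hlt : M < N := by
    refine lt_of_le_of_ne hMN ?_
    rintro rfl
    obtain ⟨c, hc, hcN⟩ := hN
    exact hMc c hc hcN
  obtain ⟨L, hLn, hML, hLN, hfac⟩ := hG M hlt
  obtain ⟨c, hc, hcL⟩ : ∃ c : ℕ, 0 < c ∧ (h : G) ^ c ∈ L := by
    by_contra hcon
    push Not at hcon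
    have := hM.le_of_ge ⟨hLn, hLN, hcon⟩ hML.le
    exact absurd (le_antisymm hML.le this) hML.ne
  exact good_of_factor M L hfac H hH h hMc hc hcL

theorem good_of_trans {R : Type u} [CommRing R] [IsDomain R] (hG : TransAdmissible R G)
    (H : Subgroup G) (hH : H.FG) (h : H) (hh : ¬ ∃ n : ℕ, 0 < n ∧ h ^ n = 1) : Good R h := by
  obtain ⟨N, hN, hQ⟩ := hG
  by_cases hc : ∃ c : ℕ, 0 < c ∧ (h : G) ^ c ∈ N
  · exact good_of_hyper N hN H hH h hh hc
  · obtain ⟨M, hM, hgood⟩ := hQ H hH h (fun c hc0 hcN => hc ⟨c, hc0, hcN⟩)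
    exact good_of_hom (QuotientGroup.mk' M) h hgood

/-- the conjecture for groups with transfinite series -/
theorem bass_trans {R : Type u} [CommRing R] [IsDomain R]
    (hG : TransAdmissible R G ∨ ∀ H : Subgroup G, H.FG → TransAdmissible R H) : BassFor R G := by
  intro n A hA g hg
  refine bass_of_local ?_ A hA g hg
  intro H hH h hh
  rcases hG with hG | hG
  · exact good_of_trans hG H hH h hh
  · let f : H →* (⊤ : Subgroup H) := Subgroup.topEquiv.symm.toMonoidHom
    have hfg : (⊤ : Subgroup H).FG := by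
      have : Group.FG H := (Group.fg_iff_subgroup_fg H).2 hH
      exact Group.fg_def.1 this
    refine good_of_hom f h (good_of_trans (hG H hH) ⊤ hfg (f h) ?_)
    rintro ⟨n, hn, h1⟩
    exact hh ⟨n, hn, congrArg Subtype.val h1⟩

end

end Pool.Agent.R934.BC
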